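import Pool.Agent.Helper98.TA.Stmts
import Pool.Agent.Helper98.TW.Basic

/-!
Sheet TA (MP_7a8f48_an), row SMC: modules of small rank along a chain of abelian extensions.
-/

open MeasureTheory Filter Topology Finset
open scoped ComplexConjugate

namespace Pool.Agent.Helper34.TA

open Pool.Agent.Helper98.TW (SA jo bo cm AM UF BF Sys Lm IA LQ Inc sg Grp SM Sat al
  lq_refl lq_bo lq_jo lq_jo_left lq_jo_right lq_trans ia_bo)
open Pool.Agent.Helper98.TA (Ab)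

section gen

variable {Ω : Type} [m0 : MeasurableSpace Ω] {μ : Measure Ω} {R R' : Ω → Ω} {C 𝒜 ℬ : SA Ω}

/-- `SM` for smaller sigma algebras -/
theorem sm_lq {n : ℕ} (h : LQ μ 𝒜 ℬ) (hs : SM μ C ℬ R n) : SM μ C 𝒜 R n := by
  intro g hg hgi E hE hE0 hH hr
  exact hs g hg (hgi.lq h) E hE hE0 (fun G hG => h _ (hH G hG)) hr

/-- `Sat` for smaller sigma algebras and smaller orders -/
theorem sat_lq {m n : ℕ} (h : LQ μ 𝒜 ℬ) (hmn : m ≤ n) (hs : Sat μ C ℬ R n) : Sat μ C 𝒜 R m := by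
  intro ψ hψ hψA hψi M hM1 hM2 hψM
  exact hs ψ hψ (h _ hψA) hψi M hM1 (hM2.trans hmn) hψM

/-- the members of a chain of abelian extensions are invariant -/
theorem ia_ab [IsProbabilityMeasure μ] (iaj : Pool.Agent.Helper98.TW.ST_IAJ) (hR : Sys μ R R')
    {E : SA Ω} {l : ℕ} (hE : Ab μ R bo E l) : IA μ E R R' := by
  induction hE with
  | refl => exact ia_bo hR
  | step b l Φ _ hΦ hinc ih => exact (iaj Ω μ R R' hR).2 b Φ ih hΦ hinc

theorem pow_aux (n l : ℕ) : n ^ 2 ≤ n ^ 2 ^ (l + 1) := by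
  rcases Nat.eq_zero_or_pos n with rfl | hn
  · simp
  · refine Nat.pow_le_pow_right hn ?_
    rw [pow_succ]
    have := Nat.one_le_two_pow (n := l)
    omega

theorem main [IsProbabilityMeasure μ] (h0 : Pool.Agent.Helper98.TW.ST_SM0)
    (hst : Pool.Agent.Helper98.TW.ST_SST) (iaj : Pool.Agent.Helper98.TW.ST_IAJ)
    (hR : Sys μ R R') (herg : Ergodic R μ) (hC : IA μ C R R') {E : SA Ω} {l : ℕ}
    (hE : Ab μ R bo E l) : ∀ n : ℕ, Sat μ C (jo C E) R (n ^ 2 ^ l) → SM μ C (jo C E) R n := by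
  induction hE with
  | refl =>
    intro n _
    exact sm_lq (lq_jo lq_refl lq_bo) (h0 Ω μ R R' C n hR herg hC)
  | step b l Φ hb hΦ hinc ih =>
    intro n hs
    have hbI : IA μ b R R' := ia_ab iaj hR hb
    have hJ : IA μ (jo C b) R R' := (iaj Ω μ R R' hR).1 C b hC hbI
    have h1 : LQ μ (jo C b) (jo C (jo b (sg Φ))) :=
      lq_jo lq_jo_left (lq_trans lq_jo_left lq_jo_right)
    have h2 : LQ μ (jo (jo C b) (sg Φ)) (jo C (jo b (sg Φ))) :=
      lq_jo h1 (lq_trans lq_jo_right lq_jo_right)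
    have h3 : LQ μ (jo C (jo b (sg Φ))) (jo (jo C b) (sg Φ)) :=
      lq_jo (lq_trans lq_jo_left lq_jo_left) (lq_jo (lq_trans lq_jo_right lq_jo_left) lq_jo_right)
    have hpow : (n ^ 2) ^ 2 ^ l = n ^ 2 ^ (l + 1) := by
      rw [← pow_mul, pow_succ, mul_comm]
    have h4 : SM μ C (jo C b) R (n ^ 2) := ih (n ^ 2) (sat_lq h1 hpow.le hs)
    have h5 : Sat μ C (jo (jo C b) (sg Φ)) R (n ^ 2) := sat_lq h2 (pow_aux n l) hs
    exact sm_lq h3 (hst Ω μ R R' C (jo C b) Φ n hR herg hC hJ lq_jo_left hΦ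
      (fun φ hφ => (hinc φ hφ).lq lq_jo_right) h5 h4)

end gen

theorem st_SMC (h0 : Pool.Agent.Helper98.TW.ST_SM0) (hst : Pool.Agent.Helper98.TW.ST_SST)
    (iaj : Pool.Agent.Helper98.TW.ST_IAJ) : Pool.Agent.Helper98.TA.ST_SMC := by
  intro Ω _ μ _ R R' C E l n hR herg hC hE hs
  exact main h0 hst iaj hR herg hC hE n hs

end Pool.Agent.Helper34.TA
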